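import Pool.Agent.Helper48.TF.FIN3

/-!
# A large class of rings which are images of torsion-free PI rings (MP_097e5c_al, Q1)

Authors: helper48 with helper23 (LG, LO), helper33 (UP), helper39 (SPI), helper41 (PRIM, LEV, JEN,
MAT, LIN, LATY), helper52 (LNR), helper57 (PSD, POL), helper66 (CNT), helper71 (LE, REG),
helper74 (GT), helper85 (STD), helper94 (KAP).

All rings are associative, not necessarily with identity.  `FA ℕ` is the free associative ring on
countably many variables (with constant terms, which are excluded where identities are defined),
`ev r f` is the value of `f` at the elements `r n` of `R`, computed in `ℤ ⊕ R`;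
`MI d R`: `R` satisfies a multilinear identity of degree `d + 1` in which the coefficient of
`x₀ x₁ ⋯ x_d` is `1`; `PI R`: `R` satisfies an identity without constant term one of whose
coefficients is `1`.
-/

set_option autoImplicit false

namespace Pool.Agent.Results.MP_097e5c_al.LargeClass

open Pool.TF48

/-- The smallest class of rings that

* contains all torsion-free PI rings,
* contains all Lie nilpotent rings (`[r₀, r₁, …, r_c] = 0` for some `c`),
* contains, for every PI ring `R`, every image of `R` by a homomorphism that kills all nilpotent
  ideals of `R`,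
* contains with a ring all the rings that satisfy all its identities (in particular its subrings,
  its homomorphic images, its powers),
* contains with two rings `A`, `B` the tensor product `A ⊗ B` over `ℤ`, and more generally every ring
  additively generated by the values of a biadditive map `β` with
  `β (a, b) β (a', b') = β (a a', b b')`,
* contains with a ring its matrix rings,
* contains every ring `R` with homomorphisms `π₀, …, π_k` to members of the class such that
  `ker π₀ ⋅ ker π₁ ⋯ ker π_k = 0`. -/
inductive InClass : (R : Type) → NonUnitalRing R → Prop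
  | torsionFree (S : Type) [i : NonUnitalRing S] : PI S → TorsionFree S → InClass S i
  | lieNilpotent (R : Type) [i : NonUnitalRing R] (c : ℕ) :
      (∀ r : ℕ → R, lnc r c = 0) → InClass R i
  | modNilpotent (R R' : Type) [NonUnitalRing R] [i' : NonUnitalRing R']
      (π : R →ₙ+* R') : PI R → Function.Surjective π →
      (∀ N : AddSubgroup R, NilIdl N → ∀ a ∈ N, π a = 0) → InClass R' i'
  | identities (R R' : Type) [i : NonUnitalRing R] [i' : NonUnitalRing R'] :
      InClass R i → (∀ f : FA ℕ, (∀ r : ℕ → R, ev r f = 0) → ∀ r : ℕ → R', ev r f = 0) →
      InClass R' i'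
  | tensor (A B R : Type) [iA : NonUnitalRing A] [iB : NonUnitalRing B] [i : NonUnitalRing R]
      (β : A →+ B →+ R) : InClass A iA → InClass B iB →
      (∀ a b a' b', β a b * β a' b' = β (a * a') (b * b')) →
      (∀ r : R, r ∈ AddSubgroup.closure {r | ∃ a b, r = β a b}) → InClass R i
  | matrix (A : Type) [i : NonUnitalRing A] (n : ℕ) : InClass A i →
      InClass (Matrix (Fin n) (Fin n) A) inferInstance
  | kernels (R : Type) [i : NonUnitalRing R] (k : ℕ) (R' : Fin (k + 1) → Type)
      [i' : ∀ j, NonUnitalRing (R' j)] (π : ∀ j, R →ₙ+* R' j) : (∀ j, InClass (R' j) (i' j)) →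
      (∀ a : Fin (k + 1) → R, (∀ j, π j (a j) = 0) →
        (List.ofFn (fun j => (a j : Unitization ℤ R))).prod = 0) → InClass R i

lemma good_of_class (R : Type) (i : NonUnitalRing R) (h : InClass R i) : Good R := by
  induction h with
  | torsionFree S h1 h2 => exact good_self h1 h2
  | lieNilpotent R c h => exact good_of_lie R c h
  | modNilpotent R R' π h1 h2 h3 =>
    obtain ⟨d, hd⟩ := amitsur R h1
    exact wedderburn d R hd R' π h2 h3
  | identities R R' _ h2 h3 => exact good_var h3 h2
  | tensor A B R β _ _ h3 h4 hA hB => exact gtens A B R β hA hB h3 h4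
  | matrix A n _ h => exact good_matrix A n h
  | kernels R k R' π _ h2 h3 => exact perm R k R' π h3 h2

/-- Every ring `R` of the class is a homomorphic image of a ring `S` with torsion-free additive
group that satisfies a multilinear identity with a coefficient `1`. -/
theorem result (R : Type) [i : NonUnitalRing R] (h : InClass R i) :
    ∃ (S : Type) (_ : NonUnitalRing S) (d : ℕ), MI d S ∧ TorsionFree S ∧
      ∃ φ : S →ₙ+* R, Function.Surjective φ := by
  obtain ⟨S, _, h1, h2, φ, hφ⟩ := good_of_class R i h
  obtain ⟨d, hd⟩ := H41.lin S h2 h1
  exact ⟨S, inferInstance, d, hd, h2, φ, hφ⟩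

end Pool.Agent.Results.MP_097e5c_al.LargeClass
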