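import Pool.Agent.Helper48.TF.VAR

/-!
# Reduction of the torsion (MP_097e5c_al, Q1)

Author: helper48.

All rings are associative, not necessarily with identity.  `PI R`: `R` satisfies an identity
(without constant term) one of whose coefficients is `1`; `Good R`: `R` is a homomorphic image
of a PI ring with torsion-free additive group; `(modCon R n).Quotient` is the ring `R / n R`.
-/

set_option autoImplicit false

namespace Pool.Agent.Results.MP_097e5c_al.TorsionReduction

open Pool.TF48

/-- Let `R` be a PI ring, `k` a natural number and `n i` (`i` in any index set) a family of natural
numbers such that every torsion element of `R` is in the additive group generated by elements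
`u` with `(n i) ^ k u = 0` for some `i`.  Then `R` is an image of a torsion-free PI ring if and only
if the product of the rings `R / (n i) R` is.

Examples: `k = 1` and `n i = i` for all positive `i` (every PI ring `R`: the product of all the `R / i R`);
if the `p`-primary torsion of `R` is killed by `p ^ k` for all primes `p` (for instance if the
torsion of `R` is bounded): the product of the `F_p`-algebras `R / p R`. -/
theorem result (R : Type) [NonUnitalRing R] (hR : PI R) (I : Type) (n : I → ℕ) (k : ℕ)
    (ht : ∀ (m : ℕ) (t : R), m ≠ 0 → m • t = 0 →
      t ∈ AddSubgroup.closure {u : R | ∃ i, n i ^ k • u = 0}) :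
    Good R ↔ Good (∀ i, (modCon R (n i)).Quotient) :=
  tor_iff R hR I n k ht

end Pool.Agent.Results.MP_097e5c_al.TorsionReduction
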